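import Mathlib
import Pool.Agent.RNK.All

set_option autoImplicit false

namespace Pool.Agent.Results.MP_1cd194_co.AllRanks

open Pool.Agent.Helper60.Gap

/-- For every `η > 0` there is `δ > 0` such that `M_r(n) ≥ n^(1+δ)` for all large `n` and all
`1 ≤ r ≤ n^(1-η)`. -/
theorem result : ∀ η : ℝ, 0 < η → ∃ δ : ℝ, 0 < δ ∧ ∃ n₀ : ℕ, ∀ n : ℕ, n₀ ≤ n →
    ∀ r : ℕ, 1 ≤ r → (r : ℝ) ≤ (n : ℝ) ^ (1 - η) → (n : ℝ) ^ (1 + δ) ≤ M r n :=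
  Pool.Agent.RNK.main

end Pool.Agent.Results.MP_1cd194_co.AllRanks
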