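import Mathlib
import Pool.Agent.Helper70.Gap.FixedRankPow

set_option autoImplicit false

namespace Pool.Agent.Results.MP_1cd194_co.FixedRank

open Pool.Agent.Helper60.Gap

/-- There is `δ > 0` such that `M_r(n)` and `M_1(n)` agree up to powers of `r`, for all
`r ≤ n ^ δ`; in particular they have the same order of growth for every fixed `r`, and
`M_r(n) = M_1(n) n^{o(1)}` for `r = n^{o(1)}`. -/
theorem result : ∃ δ : ℝ, 0 < δ ∧ ∃ n₀ : ℕ, ∀ n : ℕ, n₀ ≤ n → ∀ r : ℕ, 1 ≤ r →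
    (r : ℝ) ≤ (n : ℝ) ^ δ →
    (M 1 n : ℝ) ≤ 2 * (r : ℝ) ^ 2 * M r n ∧ M r n ≤ Mstar r n ∧
    (Mstar r n : ℝ) ≤ 3 * (r : ℝ) ^ 4 * M 1 n :=
  Pool.Agent.Helper70.Gap.fixed_rank_pow

end Pool.Agent.Results.MP_1cd194_co.FixedRank
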