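import Mathlib
import Pool.Agent.GMU.All2

set_option autoImplicit false

namespace Pool.Agent.Results.MP_1cd194_co.GeometricMean

open Pool.Agent.Helper60.Gap Pool.Agent.GMU

/-- There is `c > 0` with `c (n u(n))^(1/2) / r^(3/2) ≤ M_r(n) ≤ u(n)` for all `1 ≤ r < n`, where
`u(n)` is the largest number of unit distances among `n` points of the plane. -/
theorem result : ∃ c : ℝ, 0 < c ∧ ∀ n r : ℕ, 1 ≤ r → r < n →
    c * √((n : ℝ) * u n) / (r : ℝ) ^ (3 / 2 : ℝ) ≤ M r n ∧ M r n ≤ u n :=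
  Pool.Agent.GMU.geometric_mean'

end Pool.Agent.Results.MP_1cd194_co.GeometricMean
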