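import Mathlib
import Pool.Agent.Helper60.Gap.LargeRank

set_option autoImplicit false

namespace Pool.Agent.Results.MP_1cd194_co.LargeRank

open Pool.Agent.Helper60.Gap

/-- The order of growth of `M_r(n)` for all `r ≥ n`, with the sharp constant when
`n ≪ r ≪ n²`, and `M_r(n) ≥ n / 1000` for `r ≤ n`. -/
theorem result :
    (∀ n r : ℕ, 2 ≤ n → 1 ≤ r → r ≤ n * (n - 1) / 2 →
      min (n : ℝ) ((n : ℝ) ^ 2 / r) / 1000 ≤ M r n ∧ (M r n : ℝ) ≤ (n : ℝ) ^ 2 / (2 * r)) ∧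
    (∀ ε : ℝ, 0 < ε → ∃ C : ℝ, 0 < C ∧ ∀ n r : ℕ, 1 ≤ r → C * n ≤ r → C * r ≤ (n : ℝ) ^ 2 →
      (1 - ε) * ((n : ℝ) ^ 2 / (2 * r)) ≤ M r n) := by
  refine ⟨?_, ?_⟩
  · intro n r hn hr hrn
    exact ⟨lower_all n r hn hr (by omega), upper n r hr⟩
  · intro ε hε
    obtain ⟨C, hC, h⟩ := lower_sharp ε hε
    exact ⟨C, hC, fun n r hr h1 h2 => h n r h1 h2 hr⟩

end Pool.Agent.Results.MP_1cd194_co.LargeRank
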